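import Pool.Agent.Helper64.RB.Upper

set_option autoImplicit false

namespace Pool.Agent.Helper64.RB.ExactValue

open Pool.Agent.Helper64.RB

/-- For every `k ≥ 2` the least number `N ≥ 1` of vertices of a graph with a red-blue colouring of
its edges in which every vertex lies in a red `K_k` and in a blue `K_k` is `4 (k - 1)`. -/
theorem result : ∀ k : ℕ, 2 ≤ k → IsLeast {N : ℕ | 0 < N ∧ Good k N} (4 * (k - 1)) := by
  intro k hk
  refine ⟨⟨by omega, good_upper hk⟩, ?_⟩
  rintro N ⟨hN, h⟩
  exact h.le hN

end Pool.Agent.Helper64.RB.ExactValue
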