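import Mathlib

/-!
MP_e26f8a_co: lower bound. Set systems `R v`, `B v` (`v ∈ V`) of `k`-sets with `v ∈ R v`, `v ∈ B v`
and `|R u ∩ B v| ≤ 1` need at least `4 (k - 1)` points.
-/

open Finset

namespace Pool.Agent.Helper64.RB

variable {V : Type} [Fintype V] [DecidableEq V]

/-- probability of the point `u` under the random set `A v`, `v` chosen with weight `p v` -/
noncomputable def hit (A : V → Finset V) (p : V → ℝ) (u : V) : ℝ :=
  ∑ v, p v * (if u ∈ A v then 1 else 0)

lemma hit_nonneg (A : V → Finset V) {p : V → ℝ} (hp : ∀ v, 0 ≤ p v) (u : V) : 0 ≤ hit A p u :=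
  Finset.sum_nonneg fun v _ => mul_nonneg (hp v) (by split_ifs <;> norm_num)

/-- total mass of the hitting probabilities -/
lemma sum_hit (A : V → Finset V) {k : ℕ} (hA : ∀ v, (A v).card = k) {p : V → ℝ}
    (hp1 : ∑ v, p v = 1) : ∑ u, hit A p u = k := by
  unfold hit
  rw [Finset.sum_comm]
  have h : ∀ v, ∑ u, p v * (if u ∈ A v then (1 : ℝ) else 0) = p v * k := by
    intro v
    rw [← Finset.mul_sum, Finset.sum_boole]
    congr 2
    rw [← hA v]
    congr 1
    ext u
    simp
  simp only [h]
  rw [← Finset.sum_mul, hp1, one_mul]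

/-- expected size of the intersection of two independent random sets -/
lemma sum_hit_mul (A B : V → Finset V) (hAB : ∀ u v, (A u ∩ B v).card ≤ 1) {p q : V → ℝ}
    (hp : ∀ v, 0 ≤ p v) (hp1 : ∑ v, p v = 1) (hq : ∀ v, 0 ≤ q v) (hq1 : ∑ v, q v = 1) :
    ∑ u, hit A p u * hit B q u ≤ 1 := by
  have e : ∀ u, hit A p u * hit B q u = ∑ v, ∑ w, p v * q w *
      ((if u ∈ A v then (1 : ℝ) else 0) * (if u ∈ B w then (1 : ℝ) else 0)) := by
    intro u
    unfold hit
    rw [Finset.sum_mul_sum]
    apply Finset.sum_congr rfl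
    intro v _
    apply Finset.sum_congr rfl
    intro w _
    ring
  simp only [e]
  rw [Finset.sum_comm]
  have e2 : ∀ v, ∑ u, ∑ w, p v * q w *
      ((if u ∈ A v then (1 : ℝ) else 0) * (if u ∈ B w then (1 : ℝ) else 0)) ≤ p v := by
    intro v
    rw [Finset.sum_comm]
    calc ∑ w, ∑ u, p v * q w *
          ((if u ∈ A v then (1 : ℝ) else 0) * (if u ∈ B w then (1 : ℝ) else 0)) ≤
          ∑ w, p v * q w := by
          apply Finset.sum_le_sum
          intro w _
          rw [← Finset.mul_sum]
          have h1 : ∑ u, ((if u ∈ A v then (1 : ℝ) else 0) * (if u ∈ B w then (1 : ℝ) else 0)) =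
              ((A v ∩ B w).card : ℝ) := by
            have h2 : ∀ u, ((if u ∈ A v then (1 : ℝ) else 0) * (if u ∈ B w then (1 : ℝ) else 0)) =
                if u ∈ A v ∩ B w then 1 else 0 := by
              intro u
              by_cases h3 : u ∈ A v <;> by_cases h4 : u ∈ B w <;> simp [h3, h4]
            simp only [h2]
            rw [Finset.sum_boole]
            congr 1
            congr 1
            ext u
            simp
          rw [h1]
          have h3 : ((A v ∩ B w).card : ℝ) ≤ 1 := by exact_mod_cast hAB v w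
          have h4 : 0 ≤ p v * q w := mul_nonneg (hp v) (hq w)
          calc p v * q w * ((A v ∩ B w).card : ℝ) ≤ p v * q w * 1 := by gcongr
            _ = p v * q w := mul_one _
      _ = p v := by rw [← Finset.mul_sum, hq1, mul_one]
  calc _ ≤ ∑ v, p v := Finset.sum_le_sum fun v _ => e2 v
    _ = 1 := hp1

/-- the value of the game: one player chooses `v`, the other one a point `u`, and the payoff is `1`
if `u ∈ A v` -/
lemma game [Nonempty V] (A : V → Finset V) : ∃ (p q : V → ℝ) (ν : ℝ),
    (∀ v, 0 ≤ p v) ∧ ∑ v, p v = 1 ∧ (∀ v, 0 ≤ q v) ∧ ∑ v, q v = 1 ∧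
    (∀ u, hit A p u ≤ ν) ∧ ∀ v, ν ≤ ∑ u, q u * (if u ∈ A v then 1 else 0) := by
  classical
  let f : (V → ℝ) → (V → ℝ) → ℝ := fun p q => ∑ v, ∑ u, p v * (if u ∈ A v then 1 else 0) * q u
  have hne : (stdSimplex ℝ V).Nonempty := by
    obtain ⟨v⟩ := (inferInstance : Nonempty V)
    exact ⟨Pi.single v 1, single_mem_stdSimplex ℝ v⟩
  have hc1 : ∀ q, Continuous fun p => f p q := by
    intro q
    apply continuous_finsetSum
    intro v _
    apply continuous_finsetSum
    intro u _
    fun_prop
  have hc2 : ∀ p, Continuous fun q => f p q := by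
    intro p
    apply continuous_finsetSum
    intro v _
    apply continuous_finsetSum
    intro u _
    fun_prop
  have hl1 : ∀ q (p p' : V → ℝ) (s t : ℝ), f (s • p + t • p') q = s * f p q + t * f p' q := by
    intro q p p' s t
    simp only [f]
    rw [Finset.mul_sum, Finset.mul_sum, ← Finset.sum_add_distrib]
    apply Finset.sum_congr rfl
    intro v _
    rw [Finset.mul_sum, Finset.mul_sum, ← Finset.sum_add_distrib]
    apply Finset.sum_congr rfl
    intro u _
    simp only [Pi.add_apply, Pi.smul_apply, smul_eq_mul]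
    ring
  have hl2 : ∀ p (q q' : V → ℝ) (s t : ℝ), f p (s • q + t • q') = s * f p q + t * f p q' := by
    intro p q q' s t
    simp only [f]
    rw [Finset.mul_sum, Finset.mul_sum, ← Finset.sum_add_distrib]
    apply Finset.sum_congr rfl
    intro v _
    rw [Finset.mul_sum, Finset.mul_sum, ← Finset.sum_add_distrib]
    apply Finset.sum_congr rfl
    intro u _
    simp only [Pi.add_apply, Pi.smul_apply, smul_eq_mul]
    ring
  obtain ⟨p, hp, q, hq, hs⟩ := Sion.exists_isSaddlePointOn' (X := stdSimplex ℝ V)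
    (Y := stdSimplex ℝ V) (f := f) hne (isCompact_stdSimplex ℝ V)
    (fun q _ => (hc1 q).lowerSemicontinuous.lowerSemicontinuousOn _)
    (fun q _ => by
      apply ConvexOn.quasiconvexOn
      refine ⟨convex_stdSimplex ℝ V, ?_⟩
      intro x _ y _ s t _ _ _
      exact (hl1 q x y s t).le)
    (convex_stdSimplex ℝ V) (isCompact_stdSimplex ℝ V)
    (fun p _ => (hc2 p).upperSemicontinuous.upperSemicontinuousOn _)
    (fun p _ => by
      apply ConcaveOn.quasiconcaveOn
      refine ⟨convex_stdSimplex ℝ V, ?_⟩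
      intro x _ y _ s t _ _ _
      exact (hl2 p x y s t).ge)
    (convex_stdSimplex ℝ V) hne
  refine ⟨p, q, f p q, hp.1, hp.2, hq.1, hq.2, ?_, ?_⟩
  · intro u
    have h := hs p hp (Pi.single u 1) (single_mem_stdSimplex ℝ u)
    refine le_trans (le_of_eq ?_) h
    simp only [f, hit]
    apply Finset.sum_congr rfl
    intro v _
    rw [Finset.sum_eq_single u]
    · simp
    · intro w _ hw
      simp [Pi.single_eq_of_ne hw]
    · intro h; exact absurd (mem_univ u) h
  · intro v
    have h := hs (Pi.single v 1) (single_mem_stdSimplex ℝ v) q hq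
    refine h.trans (le_of_eq ?_)
    simp only [f]
    rw [Finset.sum_eq_single v]
    · apply Finset.sum_congr rfl
      intro u _
      simp [mul_comm]
    · intro w _ hw
      simp [Pi.single_eq_of_ne hw]
    · intro h; exact absurd (mem_univ v) h

/-- the case of a game value above one half -/
lemma case_two (R B : V → Finset V) {k : ℕ} (hR : ∀ v, v ∈ R v) (hB : ∀ v, v ∈ B v)
    (hRk : ∀ v, (R v).card = k) (hBk : ∀ v, (B v).card = k)
    (hRB : ∀ u v, (R u ∩ B v).card ≤ 1) {p q : V → ℝ} {ν : ℝ} (hν : 1 / 2 < ν)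
    (hp : ∀ v, 0 ≤ p v) (hp1 : ∑ v, p v = 1) (hq : ∀ v, 0 ≤ q v) (hq1 : ∑ v, q v = 1)
    (h1 : ∀ u, hit R p u ≤ ν) (h2 : ∀ v, ν ≤ ∑ u, q u * (if u ∈ R v then 1 else 0)) :
    4 * ((k : ℝ) - 1) ≤ Fintype.card V := by
  classical
  set r := hit R p with hr
  set b := hit B q with hb
  set S : Finset V := univ.filter fun u => 0 < q u with hS
  have hr0 : ∀ u, 0 ≤ r u := hit_nonneg R hp
  have hb0 : ∀ u, 0 ≤ b u := hit_nonneg B hq
  -- complementary slackness
  have hslack : ∑ u, q u * (ν - r u) ≤ 0 := by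
    have e1 : ∑ u, q u * r u = ∑ v, p v * ∑ u, q u * (if u ∈ R v then 1 else 0) := by
      simp only [hr, hit, Finset.mul_sum]
      rw [Finset.sum_comm]
      apply Finset.sum_congr rfl
      intro v _
      apply Finset.sum_congr rfl
      intro u _
      ring
    have e2 : ν ≤ ∑ v, p v * ∑ u, q u * (if u ∈ R v then 1 else 0) := by
      calc ν = ∑ v, p v * ν := by rw [← Finset.sum_mul, hp1, one_mul]
        _ ≤ _ := Finset.sum_le_sum fun v _ => mul_le_mul_of_nonneg_left (h2 v) (hp v)
    have e3 : ∑ u, q u * (ν - r u) = ν - ∑ u, q u * r u := by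
      simp only [mul_sub]
      rw [Finset.sum_sub_distrib, ← Finset.sum_mul, hq1, one_mul]
    rw [e3, e1]
    linarith
  have hslack2 : ∀ u, q u * (ν - r u) = 0 := by
    intro u
    have h3 : ∀ w ∈ (univ : Finset V), 0 ≤ q w * (ν - r w) := fun w _ =>
      mul_nonneg (hq w) (by linarith [h1 w])
    have h4 := (Finset.sum_eq_zero_iff_of_nonneg h3).1
      (le_antisymm hslack (Finset.sum_nonneg h3))
    exact h4 u (mem_univ u)
  have hrS : ∀ u ∈ S, r u = ν := by
    intro u hu
    rw [hS, mem_filter] at hu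
    have := hslack2 u
    rcases mul_eq_zero.1 this with h | h
    · linarith [hu.2]
    · linarith
  -- a blue set contains at most one point of S
  have hBr : ∀ a, ∑ u ∈ B a, r u ≤ 1 := by
    intro a
    have e1 : ∑ u ∈ B a, r u = ∑ v, p v * ((R v ∩ B a).card : ℝ) := by
      simp only [hr, hit]
      rw [Finset.sum_comm]
      apply Finset.sum_congr rfl
      intro v _
      rw [← Finset.mul_sum, Finset.sum_boole]
      congr 2
      congr 1
      ext u
      simp [and_comm]
    rw [e1]
    calc _ ≤ ∑ v, p v * 1 := by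
          apply Finset.sum_le_sum
          intro v _
          have : ((R v ∩ B a).card : ℝ) ≤ 1 := by exact_mod_cast hRB v a
          exact mul_le_mul_of_nonneg_left this (hp v)
      _ = 1 := by simp [hp1]
  have hBS : ∀ a ∈ S, ∀ u ∈ B a, u ≠ a → u ∉ S := by
    intro a ha u hu hua huS
    have h3 : r a + r u ≤ ∑ w ∈ B a, r w := by
      have : ({a, u} : Finset V) ⊆ B a := by
        intro w hw
        rw [mem_insert, mem_singleton] at hw
        rcases hw with rfl | rfl
        · exact hB w
        · exact hu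
      calc r a + r u = ∑ w ∈ ({a, u} : Finset V), r w := by
            rw [Finset.sum_pair hua.symm]
        _ ≤ _ := Finset.sum_le_sum_of_subset_of_nonneg this fun w _ _ => hr0 w
    have h4 := hBr a
    rw [hrS a ha, hrS u huS] at h3
    linarith
  have hbS : ∀ w ∈ S, b w = q w := by
    intro w hw
    simp only [hb, hit]
    rw [Finset.sum_eq_single w]
    · rw [if_pos (hB w), mul_one]
    · intro a _ haw
      by_cases ha : a ∈ S
      · rw [if_neg, mul_zero]
        intro h
        exact hBS a ha w h haw.symm hw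
      · have : q a = 0 := by
          rw [hS, mem_filter] at ha
          have h3 : ¬ 0 < q a := fun h => ha ⟨mem_univ a, h⟩
          linarith [hq a]
        rw [this, zero_mul]
    · intro h; exact absurd (mem_univ w) h
  have hbn : ∀ w ∉ S, b w ≤ 1 - ν := by
    intro w hw
    have h3 : b w + ∑ u, q u * (if u ∈ R w then 1 else 0) ≤ 1 := by
      simp only [hb, hit]
      rw [← Finset.sum_add_distrib]
      refine le_trans (Finset.sum_le_sum (g := q) ?_) hq1.le
      intro a _
      by_cases ha : a ∈ S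
      · have haw : a ≠ w := fun h => hw (h ▸ ha)
        by_cases h4 : w ∈ B a
        · rw [if_pos h4, if_neg]
          · linarith
          · intro h5
            have h6 := hRB w a
            have h7 : ({a, w} : Finset V) ⊆ R w ∩ B a := by
              intro x hx
              rw [mem_insert, mem_singleton] at hx
              rw [mem_inter]
              rcases hx with rfl | rfl
              · exact ⟨h5, hB x⟩
              · exact ⟨hR x, h4⟩
            have h8 := Finset.card_le_card h7
            rw [Finset.card_pair haw] at h8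
            omega
        · rw [if_neg h4]
          have := hq a
          split_ifs <;> linarith
      · have : q a = 0 := by
          rw [hS, mem_filter] at ha
          have h3 : ¬ 0 < q a := fun h => ha ⟨mem_univ a, h⟩
          linarith [hq a]
        rw [this]
        simp
    linarith [h2 w]
  -- sums
  have hqS : ∑ u ∈ S, q u = 1 := by
    rw [← hq1]
    apply Finset.sum_subset (Finset.subset_univ S)
    intro a _ ha
    rw [hS, mem_filter] at ha
    have h3 : ¬ 0 < q a := fun h => ha ⟨mem_univ a, h⟩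
    linarith [hq a]
  have split : ∀ g : V → ℝ, ∑ u, g u = ∑ u ∈ S, g u + ∑ u ∈ Sᶜ, g u := fun g =>
    (Finset.sum_add_sum_compl S g).symm
  have sr : ∑ u ∈ S, r u = ν * S.card := by
    rw [Finset.sum_congr rfl hrS, Finset.sum_const, nsmul_eq_mul, mul_comm]
  have sr' : ∑ u ∈ Sᶜ, r u = k - ν * S.card := by
    have := split r
    rw [hr, sum_hit R hRk hp1, ← hr, sr] at this
    linarith
  have sb : ∑ u ∈ S, b u = 1 := by
    rw [Finset.sum_congr rfl hbS, hqS]
  have sb' : ∑ u ∈ Sᶜ, b u = k - 1 := by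
    have := split b
    rw [hb, sum_hit B hBk hq1, ← hb, sb] at this
    linarith
  have srb : ∑ u ∈ S, r u * b u = ν := by
    have : ∀ u ∈ S, r u * b u = ν * q u := fun u hu => by rw [hrS u hu, hbS u hu]
    rw [Finset.sum_congr rfl this, ← Finset.mul_sum, hqS, mul_one]
  have srb' : ∑ u ∈ Sᶜ, r u * b u ≤ 1 - ν := by
    have h3 := split fun u => r u * b u
    have h4 := sum_hit_mul R B hRB hp hp1 hq hq1
    rw [← hr, ← hb] at h4
    linarith
  have key : 0 ≤ ∑ u ∈ Sᶜ, (ν - r u) * ((1 - ν) - b u) := by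
    apply Finset.sum_nonneg
    intro u hu
    rw [mem_compl] at hu
    exact mul_nonneg (by linarith [h1 u]) (by linarith [hbn u hu])
  have key2 : ∑ u ∈ Sᶜ, (ν - r u) * ((1 - ν) - b u) =
      ν * (1 - ν) * (Sᶜ.card : ℝ) - (1 - ν) * ∑ u ∈ Sᶜ, r u - ν * ∑ u ∈ Sᶜ, b u +
        ∑ u ∈ Sᶜ, r u * b u := by
    rw [Finset.mul_sum, Finset.mul_sum]
    have e : ∀ u, (ν - r u) * ((1 - ν) - b u) =
        ν * (1 - ν) - (1 - ν) * r u - ν * b u + r u * b u := fun u => by ring
    simp only [e]
    rw [Finset.sum_add_distrib, Finset.sum_sub_distrib, Finset.sum_sub_distrib, Finset.sum_const,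
      nsmul_eq_mul]
    ring
  rw [key2, sr', sb'] at key
  have hcard : (S.card : ℝ) + (Sᶜ.card : ℝ) = Fintype.card V := by
    rw [← Nat.cast_add, Finset.card_add_card_compl]
  have key3 : (k : ℝ) - 1 ≤ ν * (1 - ν) * (Fintype.card V : ℝ) := by
    rw [← hcard]
    nlinarith
  have hN : (0 : ℝ) ≤ Fintype.card V := by positivity
  nlinarith [sq_nonneg (ν - 1 / 2)]

/-- the case of game values at most one half -/
lemma case_one (R B : V → Finset V) {k : ℕ}
    (hRk : ∀ v, (R v).card = k) (hBk : ∀ v, (B v).card = k)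
    (hRB : ∀ u v, (R u ∩ B v).card ≤ 1) {p q : V → ℝ}
    (hp : ∀ v, 0 ≤ p v) (hp1 : ∑ v, p v = 1) (hq : ∀ v, 0 ≤ q v) (hq1 : ∑ v, q v = 1)
    (h1 : ∀ u, hit R p u ≤ 1 / 2) (h2 : ∀ u, hit B q u ≤ 1 / 2) :
    4 * ((k : ℝ) - 1) ≤ Fintype.card V := by
  have key : 0 ≤ ∑ u, (1 - 2 * hit R p u) * (1 - 2 * hit B q u) :=
    Finset.sum_nonneg fun u _ => mul_nonneg (by linarith [h1 u]) (by linarith [h2 u])
  have e : ∀ u, (1 - 2 * hit R p u) * (1 - 2 * hit B q u) =
      1 - 2 * hit R p u - 2 * hit B q u + 4 * (hit R p u * hit B q u) := fun u => by ring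
  simp only [e] at key
  rw [Finset.sum_add_distrib, Finset.sum_sub_distrib, Finset.sum_sub_distrib, ← Finset.mul_sum,
    ← Finset.mul_sum, ← Finset.mul_sum, sum_hit R hRk hp1, sum_hit B hBk hq1, Finset.sum_const,
    nsmul_eq_mul, mul_one, card_univ] at key
  have := sum_hit_mul R B hRB hp hp1 hq hq1
  linarith

/-- **lower bound** -/
theorem lower [Nonempty V] (R B : V → Finset V) {k : ℕ} (hR : ∀ v, v ∈ R v) (hB : ∀ v, v ∈ B v)
    (hRk : ∀ v, (R v).card = k) (hBk : ∀ v, (B v).card = k)
    (hRB : ∀ u v, (R u ∩ B v).card ≤ 1) : 4 * (k - 1) ≤ Fintype.card V := by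
  have hmain : 4 * ((k : ℝ) - 1) ≤ Fintype.card V := by
    obtain ⟨p, q, ν, hp, hp1, hq, hq1, h1, h2⟩ := game R
    obtain ⟨p', q', ν', hp', hp1', hq', hq1', h1', h2'⟩ := game B
    rcases le_or_gt ν (1 / 2) with h | h
    · rcases le_or_gt ν' (1 / 2) with h' | h'
      · exact case_one R B hRk hBk hRB hp hp1 hp' hp1' (fun u => (h1 u).trans h)
          (fun u => (h1' u).trans h')
      · exact case_two B R hB hR hBk hRk (fun u v => by rw [Finset.inter_comm]; exact hRB v u) h'
          hp' hp1' hq' hq1' h1' h2'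
    · exact case_two R B hR hB hRk hBk hRB h hp hp1 hq hq1 h1 h2
  rcases Nat.eq_zero_or_pos k with h | h
  · subst h; simp
  · have h3 : ((4 * (k - 1) : ℕ) : ℝ) ≤ (Fintype.card V : ℕ) := by
      push_cast [Nat.cast_sub (show 1 ≤ k by omega)]
      exact hmain
    exact_mod_cast h3

end Pool.Agent.Helper64.RB
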