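import Pool.Agent.Helper64.RB.Lower

/-!
MP_e26f8a_co: definitions, and the example with `4 (k - 1)` vertices.
-/

open Finset

namespace Pool.Agent.Helper64.RB

/-- `s` is a complete subgraph of `G` all of whose edges have the colour `col` -/
def MonoClique {N : ℕ} (G : SimpleGraph (Fin N)) (c : G.edgeSet → Bool) (col : Bool)
    (s : Finset (Fin N)) : Prop :=
  ∀ x ∈ s, ∀ y ∈ s, x ≠ y → ∃ h : s(x, y) ∈ G.edgeSet, c ⟨s(x, y), h⟩ = col

/-- there are a graph on `N` vertices and a red-blue colouring of its edges (`true` is red, `false`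
is blue) such that every vertex lies in a red `K_k` and in a blue `K_k` -/
def Good (k N : ℕ) : Prop :=
  ∃ (G : SimpleGraph (Fin N)) (c : G.edgeSet → Bool), ∀ v : Fin N,
    (∃ s : Finset (Fin N), v ∈ s ∧ s.card = k ∧ MonoClique G c true s) ∧
    (∃ s : Finset (Fin N), v ∈ s ∧ s.card = k ∧ MonoClique G c false s)

/-- the lower bound for coloured graphs -/
theorem Good.le {k N : ℕ} (hN : 0 < N) (h : Good k N) : 4 * (k - 1) ≤ N := by
  obtain ⟨G, c, h⟩ := h
  choose hR hB using h
  choose R hR1 hR2 hR3 using hR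
  choose B hB1 hB2 hB3 using hB
  have : Nonempty (Fin N) := ⟨⟨0, hN⟩⟩
  have key := lower R B hR1 hB1 hR2 hB2 (by
    intro u v
    by_contra hc
    push Not at hc
    obtain ⟨x, hx, y, hy, hxy⟩ := Finset.one_lt_card.1 hc
    rw [mem_inter] at hx hy
    obtain ⟨h1, h2⟩ := hR3 u x hx.1 y hy.1 hxy
    obtain ⟨h3, h4⟩ := hB3 v x hx.2 y hy.2 hxy
    rw [h2] at h4
    exact Bool.noConfusion h4)
  rwa [Fintype.card_fin] at key

/-- colours between the four blocks `0, 1, 2, 3` (`none`: no edges) -/
def cf (i j : Fin 4) : Option Bool :=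
  if i = j then some (decide (i = 0 ∨ i = 2))
  else if j = i + 1 then some (decide (i = 0 ∨ i = 2))
  else if i = j + 1 then some (decide (j = 0 ∨ j = 2))
  else none

lemma cf_symm : ∀ i j : Fin 4, cf i j = cf j i := by decide

lemma exists_base : ∀ (i : Fin 4) (col : Bool), ∃ β : Fin 4, cf β β = some col ∧
    cf β (β + 1) = some col ∧ cf (β + 1) β = some col ∧ (i = β ∨ i = β + 1) := by decide

section

variable (m : ℕ)

/-- the block of a vertex -/
def blk (x : Fin (4 * m)) : Fin 4 := (finProdFinEquiv.symm x).1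

/-- the example graph -/
def exG : SimpleGraph (Fin (4 * m)) where
  Adj x y := x ≠ y ∧ (cf (blk m x) (blk m y)).isSome = true
  symm := ⟨fun x y h => ⟨h.1.symm, by rw [cf_symm]; exact h.2⟩⟩
  loopless := ⟨fun x h => h.1 rfl⟩

/-- the colouring of the example graph -/
def exC (e : (exG m).edgeSet) : Bool :=
  Sym2.lift ⟨fun x y => (cf (blk m x) (blk m y)).getD true,
    fun x y => congrArg (fun o : Option Bool => o.getD true) (cf_symm _ _)⟩ e.1

/-- the vertices of a block -/
def block (β : Fin 4) : Finset (Fin (4 * m)) :=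
  univ.map ⟨fun j : Fin m => finProdFinEquiv (β, j), fun i j h => by simpa using h⟩

lemma card_block (β : Fin 4) : (block m β).card = m := by
  rw [block, card_map, card_univ, Fintype.card_fin]

lemma mem_block (β : Fin 4) (x : Fin (4 * m)) : x ∈ block m β ↔ blk m x = β := by
  unfold block blk
  rw [mem_map]
  constructor
  · rintro ⟨j, _, rfl⟩
    simp
  · intro h
    refine ⟨(finProdFinEquiv.symm x).2, mem_univ _, ?_⟩
    subst h
    exact finProdFinEquiv.apply_symm_apply x

lemma mono_of {col : Bool} {x y : Fin (4 * m)} (hxy : x ≠ y)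
    (h : cf (blk m x) (blk m y) = some col) :
    ∃ h : s(x, y) ∈ (exG m).edgeSet, exC m ⟨s(x, y), h⟩ = col := by
  refine ⟨?_, ?_⟩
  · rw [SimpleGraph.mem_edgeSet]
    exact ⟨hxy, by rw [h]; rfl⟩
  · unfold exC
    rw [Sym2.lift_mk]
    simp only [h]
    rfl

lemma mono_block {β : Fin 4} {col : Bool} (h1 : cf β β = some col)
    (h2 : cf β (β + 1) = some col) (h3 : cf (β + 1) β = some col) {w : Fin (4 * m)}
    (hw : blk m w = β + 1) : MonoClique (exG m) (exC m) col (insert w (block m β)) := by
  intro x hx y hy hxy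
  rw [mem_insert, mem_block] at hx hy
  apply mono_of m hxy
  rcases hx with rfl | hx <;> rcases hy with rfl | hy
  · exact absurd rfl hxy
  · rw [hw, hy]; exact h3
  · rw [hw, hx]; exact h2
  · rw [hx, hy]; exact h1

lemma exists_clique (hm : 0 < m) (v : Fin (4 * m)) (col : Bool) :
    ∃ s : Finset (Fin (4 * m)), v ∈ s ∧ s.card = m + 1 ∧ MonoClique (exG m) (exC m) col s := by
  obtain ⟨β, h1, h2, h3, h4⟩ := exists_base (blk m v) col
  have hne : β + 1 ≠ β := (by decide : ∀ β : Fin 4, β + 1 ≠ β) β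
  have hcard : ∀ w : Fin (4 * m), blk m w = β + 1 → (insert w (block m β)).card = m + 1 := by
    intro w hw
    rw [card_insert_of_notMem, card_block]
    rw [mem_block, hw]
    exact hne
  rcases h4 with h4 | h4
  · have hw : blk m (finProdFinEquiv (β + 1, (⟨0, hm⟩ : Fin m))) = β + 1 := by
      unfold blk; simp
    exact ⟨insert _ (block m β), mem_insert_of_mem ((mem_block m β v).2 h4), hcard _ hw,
      mono_block m h1 h2 h3 hw⟩
  · exact ⟨insert v (block m β), mem_insert_self _ _, hcard v h4, mono_block m h1 h2 h3 h4⟩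

end

/-- the upper bound -/
theorem good_upper {k : ℕ} (hk : 2 ≤ k) : Good k (4 * (k - 1)) := by
  obtain ⟨m, rfl⟩ : ∃ m, k = m + 1 := ⟨k - 1, by omega⟩
  rw [Nat.add_sub_cancel]
  exact ⟨exG m, exC m, fun v => ⟨exists_clique m (by omega) v true,
    exists_clique m (by omega) v false⟩⟩

end Pool.Agent.Helper64.RB
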